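import Pool.Agent.Lib.MP_cdd7b4_an.MX.Iface

set_option autoImplicit false
set_option linter.unusedSectionVars false
set_option linter.style.haveILetI false

/-! # ARR: from an operator on `X^N` to random block vectors -/

namespace Pool.Agent.Lib.MP_cdd7b4_an.MX.H99

open MeasureTheory
open Pool.Agent.Lib.MP_cdd7b4_an.MX
open Pool.Agent.Lib.MP_cdd7b4_an.H80
open scoped BigOperators ENNReal

/-! ## Collisions -/

section coll
variable {ι Q R : Type} [Fintype ι] [DecidableEq ι] [Fintype Q] [Nonempty Q] [Fintype R]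
  [DecidableEq R]

open Classical in
/-- One if the sampled values are not distinct, zero otherwise. -/
noncomputable def nin (φ : Q → R) (κ : ι → Q) : ℝ :=
  if Function.Injective (fun i => φ (κ i)) then 0 else 1

lemma av_pair (φ : Q → R) (ρ : ℝ) (h : ∀ r, av (fun q => if φ q = r then (1:ℝ) else 0) = ρ)
    {i j : ι} (hij : i ≠ j) :
    av (fun κ : ι → Q => if φ (κ i) = φ (κ j) then (1:ℝ) else 0) = Fintype.card R * ρ ^ 2 := by
  have e : ∀ κ : ι → Q, (if φ (κ i) = φ (κ j) then (1:ℝ) else 0)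
      = ∑ r, (if φ (κ i) = r then (1:ℝ) else 0) * (if φ (κ j) = r then (1:ℝ) else 0) := by
    intro κ
    rw [Finset.sum_eq_single (φ (κ i))]
    · by_cases h1 : φ (κ i) = φ (κ j)
      · simp [h1]
      · have h2 : ¬ φ (κ j) = φ (κ i) := fun h => h1 h.symm
        simp [h1, h2]
    · intro r _ hr
      have : ¬ φ (κ i) = r := fun h => hr h.symm
      simp [this]
    · simp
  simp only [e]
  rw [av_sum]
  have e2 : ∀ r, av (fun κ : ι → Q => (if φ (κ i) = r then (1:ℝ) else 0)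
      * (if φ (κ j) = r then (1:ℝ) else 0)) = ρ ^ 2 := by
    intro r
    rw [av_coord2 hij (fun q => if φ q = r then (1:ℝ) else 0)
      (fun q => if φ q = r then (1:ℝ) else 0), h r]
    ring
  rw [Finset.sum_congr rfl (fun r _ => e2 r)]
  simp

lemma nin_nonneg (φ : Q → R) (κ : ι → Q) : 0 ≤ nin φ κ := by
  unfold nin; split_ifs <;> norm_num

lemma nin_le (φ : Q → R) (κ : ι → Q) :
    nin φ κ ≤ ∑ i, ∑ j, if i ≠ j then (if φ (κ i) = φ (κ j) then (1:ℝ) else 0) else 0 := by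
  have h0 : ∀ i j : ι, (0:ℝ) ≤ if i ≠ j then (if φ (κ i) = φ (κ j) then (1:ℝ) else 0) else 0 := by
    intro i j; split_ifs <;> norm_num
  unfold nin
  split_ifs with h
  · exact Finset.sum_nonneg (fun i _ => Finset.sum_nonneg (fun j _ => h0 i j))
  · have h1 : ∃ i j : ι, φ (κ i) = φ (κ j) ∧ i ≠ j := by
      by_contra hc
      push Not at hc
      exact h (fun i j hij => hc i j hij)
    obtain ⟨i, j, h2, h3⟩ := h1
    have h4 : (1:ℝ) ≤ if i ≠ j then (if φ (κ i) = φ (κ j) then (1:ℝ) else 0) else 0 := by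
      simp [h2, h3]
    refine h4.trans ?_
    refine (Finset.single_le_sum (f := fun j => if i ≠ j then
      (if φ (κ i) = φ (κ j) then (1:ℝ) else 0) else 0) (fun j _ => h0 i j)
      (Finset.mem_univ j)).trans ?_
    exact Finset.single_le_sum (f := fun i => ∑ j, if i ≠ j then
      (if φ (κ i) = φ (κ j) then (1:ℝ) else 0) else 0)
      (fun i _ => Finset.sum_nonneg (fun j _ => h0 i j)) (Finset.mem_univ i)

lemma av_nin_le (φ : Q → R) (ρ : ℝ) (h : ∀ r, av (fun q => if φ q = r then (1:ℝ) else 0) = ρ) :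
    av (fun κ : ι → Q => nin φ κ) ≤ (Fintype.card ι : ℝ) ^ 2 * (Fintype.card R * ρ ^ 2) := by
  refine (av_mono (nin_le φ)).trans ?_
  rw [av_sum]
  have e1 : ∀ i : ι, av (fun κ : ι → Q => ∑ j, if i ≠ j then
      (if φ (κ i) = φ (κ j) then (1:ℝ) else 0) else 0)
      ≤ Fintype.card ι * (Fintype.card R * ρ ^ 2) := by
    intro i
    rw [av_sum]
    have e2 : ∀ j : ι, av (fun κ : ι → Q => if i ≠ j then
        (if φ (κ i) = φ (κ j) then (1:ℝ) else 0) else 0) ≤ Fintype.card R * ρ ^ 2 := by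
      intro j
      by_cases hij : i ≠ j
      · simp only [hij, not_false_eq_true, if_true, ne_eq]
        exact (av_pair φ ρ h hij).le
      · simp only [hij, if_false]
        have : av (fun _ : ι → Q => (0:ℝ)) = 0 := by simp [av]
        rw [this]
        positivity
    refine (Finset.sum_le_sum (fun j _ => e2 j)).trans (le_of_eq ?_)
    simp
  refine (Finset.sum_le_sum (fun i _ => e1 i)).trans (le_of_eq ?_)
  simp
  ring

end coll

lemma av_row (N : ℕ) (r : Fin N) :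
    av (fun q : Fin N => if id q = r then (1:ℝ) else 0) = (N : ℝ)⁻¹ := by
  simp [av]

lemma av_col (K : ℕ) (hK : 0 < K) (r : Fin K) :
    av (fun q : Fin K × Bool => if q.1 = r then (1:ℝ) else 0) = (K : ℝ)⁻¹ := by
  have hK' : (K : ℝ) ≠ 0 := by exact_mod_cast hK.ne'
  simp only [av, Fintype.sum_prod_type, Fintype.card_prod, Fintype.card_fin, Fintype.card_bool]
  have : ∀ x : Fin K, ∑ _y : Bool, (if x = r then (1:ℝ) else 0) = if x = r then 2 else 0 := by
    intro x; split_ifs <;> simp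
  rw [Finset.sum_congr rfl (fun x _ => this x)]
  simp
  field_simp

lemma coll_row (N M : ℕ) (hN : 0 < N) :
    av (fun ν : Fin M → Fin N => nin id ν) ≤ (M : ℝ) ^ 2 / N := by
  haveI : Nonempty (Fin N) := ⟨⟨0, hN⟩⟩
  have hN' : (N : ℝ) ≠ 0 := by exact_mod_cast hN.ne'
  refine (av_nin_le (ι := Fin M) (Q := Fin N) id ((N : ℝ)⁻¹) (av_row N)).trans (le_of_eq ?_)
  simp only [Fintype.card_fin]
  field_simp

lemma coll_col (K D : ℕ) (hK : 0 < K) :
    av (fun κ : Fin D → Fin K × Bool => nin Prod.fst κ) ≤ (D : ℝ) ^ 2 / K := by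
  haveI : Nonempty (Fin K) := ⟨⟨0, hK⟩⟩
  have hK' : (K : ℝ) ≠ 0 := by exact_mod_cast hK.ne'
  refine (av_nin_le (ι := Fin D) (Q := Fin K × Bool) Prod.fst ((K : ℝ)⁻¹)
    (av_col K hK)).trans (le_of_eq ?_)
  simp only [Fintype.card_fin]
  field_simp

/-! ## Norms of the block vectors -/

lemma lpn_nonneg {ι : Type*} [Fintype ι] (p : ℝ) (a : ι → ℝ) : 0 ≤ lpn p a :=
  Real.rpow_nonneg (Finset.sum_nonneg (fun i _ => Real.rpow_nonneg (abs_nonneg _) _)) _

lemma le_lpn {ι : Type*} [Fintype ι] {p : ℝ} (hp : 1 ≤ p) (a : ι → ℝ) (i : ι) :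
    |a i| ≤ lpn p a := by
  have hp0 : 0 < p := by linarith
  have h1 : |a i| ^ p ≤ ∑ j, |a j| ^ p :=
    Finset.single_le_sum (f := fun j => |a j| ^ p)
      (fun j _ => Real.rpow_nonneg (abs_nonneg _) _) (Finset.mem_univ i)
  have h2 := Real.rpow_le_rpow (Real.rpow_nonneg (abs_nonneg (a i)) p) h1
    (by positivity : 0 ≤ 1 / p)
  rw [← Real.rpow_mul (abs_nonneg _), mul_one_div_cancel hp0.ne', Real.rpow_one] at h2
  exact h2

section vec
variable {𝕜 : Type*} [RCLike 𝕜] {X : Type*} [NormedAddCommGroup X] [NormedSpace 𝕜 X]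

lemma lpn_coef {K D : ℕ} {p : ℝ} (hp : 1 ≤ p) (a : Fin D → ℝ) (κ : Fin D → Fin K × Bool)
    (h : Function.Injective (fun i => (κ i).1)) :
    lpn p (fun k => ‖∑ i, if (κ i).1 = k then ((a i : ℝ) : 𝕜) * sg 𝕜 (κ i).2 else 0‖)
      = lpn p a := by
  have hp0 : p ≠ 0 := by linarith
  unfold lpn
  congr 1
  have e1 : ∀ i, |‖∑ i', if (κ i').1 = (κ i).1 then ((a i' : ℝ) : 𝕜) * sg 𝕜 (κ i').2 else 0‖| ^ p
      = |a i| ^ p := by
    intro i
    rw [Finset.sum_eq_single i]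
    · rw [if_pos rfl, norm_mul, norm_sg, mul_one, RCLike.norm_ofReal, abs_abs]
    · intro j _ hj
      rw [if_neg]
      intro h'
      exact hj (h h')
    · simp
  rw [← Finset.sum_congr rfl (fun i _ => e1 i)]
  symm
  have e2 := Finset.sum_image (s := (Finset.univ : Finset (Fin D)))
    (f := fun k => |‖∑ i', if (κ i').1 = k then ((a i' : ℝ) : 𝕜) * sg 𝕜 (κ i').2 else 0‖| ^ p)
    (g := fun i => (κ i).1) (fun x _ y _ hxy => h hxy)
  rw [← e2]
  apply Finset.sum_subset (Finset.subset_univ _)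
  intro k _ hk
  have : ∑ i', (if (κ i').1 = k then ((a i' : ℝ) : 𝕜) * sg 𝕜 (κ i').2 else 0) = 0 := by
    apply Finset.sum_eq_zero
    intro i _
    rw [if_neg]
    intro h'
    exact hk (Finset.mem_image.2 ⟨i, Finset.mem_univ _, h'⟩)
  rw [this, norm_zero, abs_zero, Real.zero_rpow hp0]

lemma blk_coef {K D : ℕ} (y : Fin K → X) (a : Fin D → ℝ) (κ : Fin D → Fin K × Bool) :
    blk 𝕜 y a κ = ∑ k, (∑ i, if (κ i).1 = k then ((a i : ℝ) : 𝕜) * sg 𝕜 (κ i).2 else 0) • y k := by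
  unfold blk
  simp only [Finset.sum_smul]
  rw [Finset.sum_comm]
  refine Finset.sum_congr rfl (fun i _ => ?_)
  rw [Finset.sum_eq_single (κ i).1]
  · rw [if_pos rfl, mul_smul]
  · intro k _ hk
    rw [if_neg (fun h => hk h.symm), zero_smul]
  · simp

lemma norm_blk_le {K D : ℕ} {p C : ℝ} (hp : 1 ≤ p) (y : Fin K → X)
    (hy : ∀ k, ‖y k‖ ≤ C) (a : Fin D → ℝ) (κ : Fin D → Fin K × Bool) :
    ‖blk 𝕜 y a κ‖ ≤ D * (C * lpn p a) := by
  unfold blk
  refine (norm_sum_le _ _).trans ?_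
  have : ∀ i ∈ (Finset.univ : Finset (Fin D)),
      ‖((a i : ℝ) : 𝕜) • (sg 𝕜 (κ i).2 • y (κ i).1)‖ ≤ C * lpn p a := by
    intro i _
    rw [norm_smul, norm_smul, norm_sg, one_mul, RCLike.norm_ofReal, mul_comm]
    have hC : 0 ≤ C := (norm_nonneg _).trans (hy (κ i).1)
    exact mul_le_mul (hy _) (le_lpn hp a i) (abs_nonneg _) hC
  refine (Finset.sum_le_sum this).trans (le_of_eq ?_)
  simp

end vec

/-! ## The operator -/

section op
variable {𝕜 : Type*} [RCLike 𝕜] {X : Type*} [NormedAddCommGroup X] [NormedSpace 𝕜 X]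
  {Ω : Type} [MeasurableSpace Ω] {ν : Measure Ω}

lemma coe_sum {J : Type*} (s : Finset J) (c : J → 𝕜) (f : J → Lp X 1 ν) :
    ((∑ j ∈ s, c j • f j : Lp X 1 ν) : Ω → X) =ᵐ[ν] fun ω => ∑ j ∈ s, c j • (f j : Ω → X) ω := by
  classical
  induction s using Finset.induction_on with
  | empty =>
    simp only [Finset.sum_empty]
    exact Lp.coeFn_zero X 1 ν
  | insert j s hj ih =>
    rw [Finset.sum_insert hj]
    filter_upwards [Lp.coeFn_add (c j • f j) (∑ j ∈ s, c j • f j), Lp.coeFn_smul (c j) (f j), ih]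
      with ω h1 h2 h3
    rw [h1, Finset.sum_insert hj, Pi.add_apply, h2, h3, Pi.smul_apply]

variable {N : ℕ} (T : (Fin N → X) →ₗ[𝕜] Lp X 1 ν)

/-- The restriction of `T` to one coordinate. -/
noncomputable def Lr (n : Fin N) : X →ₗ[𝕜] Lp X 1 ν := T ∘ₗ LinearMap.single 𝕜 (fun _ => X) n

/-- The random vectors. -/
noncomputable def xr {K : ℕ} (y : Fin K → X) (ω : Ω) (n : Fin N) (k : Fin K) : X :=
  (Lr T n (y k) : Ω → X) ω

lemma Lr_norm {c b : ℝ} (hT : ∀ z : Fin N → X,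
    c * Real.sqrt (∑ n, ‖z n‖ ^ 2) ≤ ‖T z‖ ∧ ‖T z‖ ≤ b * Real.sqrt (∑ n, ‖z n‖ ^ 2))
    (n : Fin N) (v : X) : c * ‖v‖ ≤ ‖Lr T n v‖ ∧ ‖Lr T n v‖ ≤ b * ‖v‖ := by
  have h := hT (Pi.single n v)
  have e : Real.sqrt (∑ m, ‖(Pi.single n v : Fin N → X) m‖ ^ 2) = ‖v‖ := by
    rw [Finset.sum_eq_single n]
    · rw [Pi.single_eq_same, Real.sqrt_sq (norm_nonneg _)]
    · intro m _ hm
      rw [Pi.single_eq_of_ne hm]; simp
    · simp
  rw [e] at h
  exact h

lemma Lr_sum {b : ℝ} (hT : ∀ z : Fin N → X, ‖T z‖ ≤ b * Real.sqrt (∑ n, ‖z n‖ ^ 2))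
    {M : ℕ} (r : Fin M → Fin N) (hr : Function.Injective r) (v : Fin M → X) :
    ‖∑ s, Lr T (r s) (v s)‖ ≤ b * Real.sqrt (∑ s, ‖v s‖ ^ 2) := by
  have h := hT (∑ s, Pi.single (r s) (v s))
  have e1 : T (∑ s, Pi.single (r s) (v s)) = ∑ s, Lr T (r s) (v s) := by
    rw [map_sum]; rfl
  rw [e1] at h
  refine h.trans (le_of_eq ?_)
  congr 2
  have e2 : ∀ s, (∑ s', (Pi.single (r s') (v s') : Fin N → X)) (r s) = v s := by
    intro s
    rw [Finset.sum_apply, Finset.sum_eq_single s]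
    · rw [Pi.single_eq_same]
    · intro s' _ hs'
      rw [Pi.single_eq_of_ne]
      intro h'
      exact hs' (hr h'.symm)
    · simp
  have e3 : ∑ s, ‖v s‖ ^ 2 = ∑ s, ‖(∑ s', (Pi.single (r s') (v s') : Fin N → X)) (r s)‖ ^ 2 :=
    Finset.sum_congr rfl (fun s _ => by rw [e2])
  have e4 := Finset.sum_image (s := (Finset.univ : Finset (Fin M)))
    (f := fun n => ‖(∑ s', (Pi.single (r s') (v s') : Fin N → X)) n‖ ^ 2)
    (g := r) (fun x _ y _ hxy => hr hxy)
  rw [e3, ← e4]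
  symm
  apply Finset.sum_subset (Finset.subset_univ _)
  intro n _ hn
  rw [Finset.sum_apply, Finset.sum_eq_zero]
  · simp
  · intro s _
    rw [Pi.single_eq_of_ne]
    intro h'
    exact hn (Finset.mem_image.2 ⟨s, Finset.mem_univ _, h'.symm⟩)

lemma Lr_blk {K D : ℕ} (n : Fin N) (y : Fin K → X) (a : Fin D → ℝ)
    (κ : Fin D → Fin K × Bool) :
    Lr T n (blk 𝕜 y a κ) = ∑ i, (((a i : ℝ) : 𝕜) * sg 𝕜 (κ i).2) • Lr T n (y (κ i).1) := by
  unfold blk
  rw [map_sum]
  refine Finset.sum_congr rfl (fun i _ => ?_)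
  rw [map_smul, map_smul, mul_smul]

lemma ae_blk {K D M : ℕ} (y : Fin K → X) (a : Fin D → ℝ) (r : Fin M → Fin N)
    (κ : Fin M → Fin D → Fin K × Bool) :
    ((∑ s, Lr T (r s) (blk 𝕜 y a (κ s)) : Lp X 1 ν) : Ω → X) =ᵐ[ν]
      fun ω => ∑ s, ((1 : ℝ) : 𝕜) • blk 𝕜 (xr T y ω (r s)) a (κ s) + 0 := by
  have h := coe_sum (ν := ν) (Finset.univ : Finset (Fin M × Fin D))
    (fun z => ((a z.2 : ℝ) : 𝕜) * sg 𝕜 (κ z.1 z.2).2) (fun z => Lr T (r z.1) (y (κ z.1 z.2).1))
  have e1 : (∑ s, Lr T (r s) (blk 𝕜 y a (κ s)) : Lp X 1 ν)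
      = ∑ z : Fin M × Fin D, (((a z.2 : ℝ) : 𝕜) * sg 𝕜 (κ z.1 z.2).2) •
        Lr T (r z.1) (y (κ z.1 z.2).1) := by
    rw [Fintype.sum_prod_type]
    exact Finset.sum_congr rfl (fun s _ => Lr_blk T (r s) y a (κ s))
  rw [e1]
  refine h.trans (Filter.Eventually.of_forall (fun ω => ?_))
  simp only [Fintype.sum_prod_type, blk, xr, RCLike.ofReal_one, one_smul, add_zero]
  refine Finset.sum_congr rfl (fun s _ => Finset.sum_congr rfl (fun i _ => ?_))
  rw [mul_smul]

lemma int_blk {K D M : ℕ} (y : Fin K → X) (a : Fin D → ℝ) (r : Fin M → Fin N)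
    (κ : Fin M → Fin D → Fin K × Bool) :
    Integrable (fun ω => ‖∑ s, ((1 : ℝ) : 𝕜) • blk 𝕜 (xr T y ω (r s)) a (κ s) + 0‖) ν ∧
    ∫ ω, ‖∑ s, ((1 : ℝ) : 𝕜) • blk 𝕜 (xr T y ω (r s)) a (κ s) + 0‖ ∂ν
      = ‖∑ s, Lr T (r s) (blk 𝕜 y a (κ s))‖ := by
  have h := ae_blk T y a r κ
  have h1 : Integrable (fun ω => ∑ s, ((1 : ℝ) : 𝕜) • blk 𝕜 (xr T y ω (r s)) a (κ s) + 0) ν :=
    (L1.integrable_coeFn _).congr h
  refine ⟨h1.norm, ?_⟩
  rw [L1.norm_eq_integral_norm]
  refine integral_congr_ae ?_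
  filter_upwards [h] with ω hω
  rw [hω]

lemma int_Psi {K D M : ℕ} (y : Fin K → X) (a : Fin D → ℝ) :
    Integrable (fun ω => Psi 𝕜 (xr T y ω) M a) ν ∧
    ∫ ω, Psi 𝕜 (xr T y ω) M a ∂ν = av (fun r : Fin M → Fin N =>
      av (fun κ : Fin M → Fin D → Fin K × Bool => ‖∑ s, Lr T (r s) (blk 𝕜 y a (κ s))‖)) := by
  unfold Psi NR NU av
  constructor
  · refine Integrable.const_mul (integrable_finsetSum _ (fun r _ => ?_)) _
    refine Integrable.const_mul (integrable_finsetSum _ (fun κ _ => ?_)) _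
    exact (int_blk T y a r κ).1
  · rw [integral_const_mul, integral_finsetSum]
    · congr 1
      refine Finset.sum_congr rfl (fun r _ => ?_)
      rw [integral_const_mul, integral_finsetSum]
      · congr 1
        refine Finset.sum_congr rfl (fun κ _ => ?_)
        exact (int_blk T y a r κ).2
      · intro κ _
        exact (int_blk T y a r κ).1
    · intro r _
      refine Integrable.const_mul (integrable_finsetSum _ (fun κ _ => ?_)) _
      exact (int_blk T y a r κ).1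

end op

/-! ## The averages -/

lemma av_le_of {α : Type*} [Fintype α] [Nonempty α] {f : α → ℝ} {c : ℝ} (h : ∀ a, f a ≤ c) :
    av f ≤ c := by
  have := av_mono h
  rwa [av_const] at this

lemma le_av_of {α : Type*} [Fintype α] [Nonempty α] {f : α → ℝ} {c : ℝ} (h : ∀ a, c ≤ f a) :
    c ≤ av f := by
  have := av_mono h
  rwa [av_const] at this

/-- The upper bound of the average. -/
lemma av_upper {N K D M : ℕ} (hN : 0 < N) (hK : 0 < K) (G H : ℝ) (hH : 0 ≤ H)
    (F : (Fin M → Fin N) → (Fin M → Fin D → Fin K × Bool) → ℝ)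
    (hF : ∀ r κ, F r κ ≤ G + H * (nin id r + ∑ s, nin Prod.fst (κ s))) :
    av (fun r => av (fun κ => F r κ)) ≤ G + H * ((M : ℝ) ^ 2 / N + M * ((D : ℝ) ^ 2 / K)) := by
  haveI : Nonempty (Fin N) := ⟨⟨0, hN⟩⟩
  haveI : Nonempty (Fin K) := ⟨⟨0, hK⟩⟩
  have h1 : ∀ r : Fin M → Fin N, av (fun κ => F r κ) ≤ (G + H * (M * ((D : ℝ) ^ 2 / K)))
      + H * nin id r := by
    intro r
    refine (av_mono (hF r)).trans ?_
    have e1 : (fun κ : Fin M → Fin D → Fin K × Bool =>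
        G + H * (nin id r + ∑ s, nin Prod.fst (κ s)))
        = fun κ => (G + H * nin id r) + H * ∑ s, nin Prod.fst (κ s) := by
      funext κ; ring
    rw [e1, av_add, av_const, av_const_mul,
      av_sum_coord (fun (_ : Fin M) (q : Fin D → Fin K × Bool) => nin Prod.fst q)]
    have h2 : ∑ _s : Fin M, av (fun q : Fin D → Fin K × Bool => nin Prod.fst q)
        ≤ M * ((D : ℝ) ^ 2 / K) := by
      rw [Finset.sum_const, Finset.card_univ, Fintype.card_fin, nsmul_eq_mul]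
      exact mul_le_mul_of_nonneg_left (coll_col K D hK) (Nat.cast_nonneg _)
    have h3 := mul_le_mul_of_nonneg_left h2 hH
    linarith
  refine (av_mono h1).trans ?_
  rw [av_add, av_const, av_const_mul]
  have h2 := mul_le_mul_of_nonneg_left (coll_row N M hN) hH
  linarith

/-- The lower bound of the average for one row. -/
lemma av_lower {N K D : ℕ} (hN : 0 < N) (hK : 0 < K) (G : ℝ) (hG : 0 ≤ G)
    (F : (Fin 1 → Fin N) → (Fin 1 → Fin D → Fin K × Bool) → ℝ)
    (hF : ∀ r κ, G * (1 - nin Prod.fst (κ 0)) ≤ F r κ) (hD : (D : ℝ) ^ 2 / K ≤ 1 / 2) :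
    G / 2 ≤ av (fun r => av (fun κ => F r κ)) := by
  haveI : Nonempty (Fin N) := ⟨⟨0, hN⟩⟩
  haveI : Nonempty (Fin K) := ⟨⟨0, hK⟩⟩
  refine le_av_of (fun r => ?_)
  refine le_trans ?_ (av_mono (hF r))
  have e1 : (fun κ : Fin 1 → Fin D → Fin K × Bool => G * (1 - nin Prod.fst (κ 0)))
      = fun κ => G - G * nin Prod.fst (κ 0) := by
    funext κ; ring
  rw [e1, av_sub, av_const, av_const_mul,
    av_coord (ι := Fin 1) 0 (fun q : Fin D → Fin K × Bool => nin Prod.fst q)]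
  have h1 := mul_le_mul_of_nonneg_left ((coll_col K D hK).trans hD) hG
  linarith

lemma nin_eq_zero {ι Q R : Type} [Fintype ι] [DecidableEq R] {φ : Q → R} {κ : ι → Q}
    (h : Function.Injective (fun i => φ (κ i))) : nin φ κ = 0 := by
  unfold nin; rw [if_pos h]

lemma nin_eq_one {ι Q R : Type} [Fintype ι] [DecidableEq R] {φ : Q → R} {κ : ι → Q}
    (h : ¬ Function.Injective (fun i => φ (κ i))) : nin φ κ = 1 := by
  unfold nin; rw [if_neg h]

/-- ARR. -/
theorem arr (𝕜 : Type*) [RCLike 𝕜] (X : Type*) [NormedAddCommGroup X] [NormedSpace 𝕜 X] :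
    ArrStatement 𝕜 X := by
  intro p hp hp2 hL hW
  obtain ⟨c1, C1', hc1, hL⟩ := hL
  obtain ⟨Ω, mΩ, ν, c2, b2', hc2, hW⟩ := hW
  set C1 := max C1' 1 with hC1
  set b2 := max b2' 1 with hb2
  have hC1p : 0 < C1 := lt_of_lt_of_le one_pos (le_max_right _ _)
  have hb2p : 0 < b2 := lt_of_lt_of_le one_pos (le_max_right _ _)
  have hp0 : 0 < p := by linarith
  refine ⟨c2 * c1 / 2, 3 * (b2 * C1), by positivity, by positivity, fun D' M' => ?_⟩
  set N : ℕ := M' ^ 3 * D' + 1 with hN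
  set K : ℕ := M' ^ 2 * D' ^ 3 + 2 * D' ^ 2 + 1 with hK
  have hNp : 0 < N := by omega
  have hKp : 0 < K := by omega
  obtain ⟨T, hT⟩ := hW N
  obtain ⟨y, hy⟩ := hL K
  refine ⟨N, K, Ω, mΩ, ν, fun ω => xr T y ω, hNp, hKp, ?_⟩
  intro D M a hD hM hM1
  have hI := fun (M : ℕ) => int_Psi (𝕜 := 𝕜) T (K := K) (M := M) y a
  have hl0 : 0 ≤ lpn p a := lpn_nonneg p a
  -- the operator
  have hT' : ∀ z : Fin N → X, c2 * Real.sqrt (∑ n, ‖z n‖ ^ 2) ≤ ‖T z‖ ∧
      ‖T z‖ ≤ b2 * Real.sqrt (∑ n, ‖z n‖ ^ 2) := fun z =>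
    ⟨(hT z).1, (hT z).2.trans (mul_le_mul_of_nonneg_right (le_max_left _ _)
      (Real.sqrt_nonneg _))⟩
  -- the vectors
  have hyC : ∀ k, ‖y k‖ ≤ C1 := by
    intro k
    have h1 := (hy (Pi.single k 1)).2
    have e1 : ∑ l, (Pi.single k (1:𝕜) : Fin K → 𝕜) l • y l = y k := by
      rw [Finset.sum_eq_single k]
      · rw [Pi.single_eq_same, one_smul]
      · intro l _ hl
        rw [Pi.single_eq_of_ne hl, zero_smul]
      · simp
    have e2 : lpn p (fun l => ‖(Pi.single k (1:𝕜) : Fin K → 𝕜) l‖) = 1 := by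
      unfold lpn
      rw [Finset.sum_eq_single k]
      · simp only [Pi.single_eq_same, norm_one, abs_one, Real.one_rpow]
      · intro l _ hl
        simp only [Pi.single_eq_of_ne hl, norm_zero, abs_zero, Real.zero_rpow hp0.ne']
      · simp
    rw [e1, e2, mul_one] at h1
    exact h1.trans (le_max_left _ _)
  have hblk : ∀ κ : Fin D → Fin K × Bool, Function.Injective (fun i => (κ i).1) →
      c1 * lpn p a ≤ ‖blk 𝕜 y a κ‖ ∧ ‖blk 𝕜 y a κ‖ ≤ C1 * lpn p a := by
    intro κ hκ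
    have h1 := hy (fun k => ∑ i, if (κ i).1 = k then ((a i : ℝ) : 𝕜) * sg 𝕜 (κ i).2 else 0)
    rw [← blk_coef, lpn_coef hp a κ hκ] at h1
    exact ⟨h1.1, h1.2.trans (mul_le_mul_of_nonneg_right (le_max_left _ _) hl0)⟩
  refine ⟨(hI M).1, ?_, ?_⟩
  · rw [(hI M).2]
    have hF : ∀ (r : Fin M → Fin N) (κ : Fin M → Fin D → Fin K × Bool),
        ‖∑ s, Lr T (r s) (blk 𝕜 y a (κ s))‖ ≤ b2 * C1 * Real.sqrt M * lpn p a +
          b2 * C1 * M * D * lpn p a * (nin id r + ∑ s, nin Prod.fst (κ s)) := by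
      intro r κ
      have hs0 : 0 ≤ ∑ s, nin Prod.fst (κ s) :=
        Finset.sum_nonneg (fun s _ => nin_nonneg Prod.fst (κ s))
      have hr0 : 0 ≤ nin id r := nin_nonneg id r
      have hH : 0 ≤ b2 * C1 * M * D * lpn p a := by positivity
      have hG : 0 ≤ b2 * C1 * Real.sqrt M * lpn p a := by positivity
      by_cases hg : Function.Injective r ∧ ∀ s, Function.Injective (fun i => (κ s i).1)
      · have h1 := Lr_sum T (fun z => (hT' z).2) r hg.1 (fun s => blk 𝕜 y a (κ s))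
        have h2 : Real.sqrt (∑ s, ‖blk 𝕜 y a (κ s)‖ ^ 2) ≤ Real.sqrt M * (C1 * lpn p a) := by
          have h3 : ∑ s, ‖blk 𝕜 y a (κ s)‖ ^ 2 ≤ M * (C1 * lpn p a) ^ 2 := by
            refine (Finset.sum_le_sum (fun s _ =>
              pow_le_pow_left₀ (norm_nonneg _) (hblk (κ s) (hg.2 s)).2 2)).trans (le_of_eq ?_)
            simp
          refine (Real.sqrt_le_sqrt h3).trans (le_of_eq ?_)
          rw [Real.sqrt_mul (Nat.cast_nonneg _), Real.sqrt_sq (by positivity)]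
        have h3 := mul_le_mul_of_nonneg_left h2 hb2p.le
        have h4 : 0 ≤ b2 * C1 * M * D * lpn p a * (nin id r + ∑ s, nin Prod.fst (κ s)) := by
          positivity
        calc _ ≤ b2 * (Real.sqrt M * (C1 * lpn p a)) := h1.trans h3
          _ = b2 * C1 * Real.sqrt M * lpn p a := by ring
          _ ≤ _ := by linarith
      · have h1 : 1 ≤ nin id r + ∑ s, nin Prod.fst (κ s) := by
          by_cases hr : Function.Injective r
          · have h2 : ∃ s, ¬ Function.Injective (fun i => (κ s i).1) := by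
              by_contra hc
              push Not at hc
              exact hg ⟨hr, hc⟩
            obtain ⟨s, hs⟩ := h2
            have h3 : nin Prod.fst (κ s) = 1 := nin_eq_one hs
            have h4 : nin Prod.fst (κ s) ≤ ∑ s, nin Prod.fst (κ s) :=
              Finset.single_le_sum (f := fun s => nin Prod.fst (κ s))
                (fun s _ => nin_nonneg Prod.fst (κ s)) (Finset.mem_univ s)
            linarith
          · have h3 : nin id r = 1 := nin_eq_one hr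
            linarith
        have h2 : ‖∑ s, Lr T (r s) (blk 𝕜 y a (κ s))‖ ≤ b2 * C1 * M * D * lpn p a := by
          refine (norm_sum_le _ _).trans ?_
          have h3 : ∀ s ∈ (Finset.univ : Finset (Fin M)), ‖Lr T (r s) (blk 𝕜 y a (κ s))‖
              ≤ b2 * (D * (C1 * lpn p a)) := fun s _ =>
            (Lr_norm T hT' (r s) _).2.trans
              (mul_le_mul_of_nonneg_left (norm_blk_le hp y hyC a (κ s)) hb2p.le)
          refine (Finset.sum_le_sum h3).trans (le_of_eq ?_)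
          rw [Finset.sum_const, Finset.card_univ, Fintype.card_fin, nsmul_eq_mul]
          ring
        have h3 := mul_le_mul_of_nonneg_left h1 hH
        linarith
    have h1 := av_upper hNp hKp (b2 * C1 * Real.sqrt M * lpn p a)
      (b2 * C1 * M * D * lpn p a) (by positivity)
      (fun r κ => ‖∑ s, Lr T (r s) (blk 𝕜 y a (κ s))‖) hF
    refine h1.trans ?_
    have hNr : (0:ℝ) < N := by exact_mod_cast hNp
    have hKr : (0:ℝ) < K := by exact_mod_cast hKp
    have hMr : (1:ℝ) ≤ M := by exact_mod_cast hM1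
    have h2 : (M : ℝ) * D * ((M : ℝ) ^ 2 / N) ≤ 1 := by
      rw [← mul_div_assoc, div_le_one hNr]
      have : M * D * M ^ 2 ≤ N := by
        calc M * D * M ^ 2 = M ^ 3 * D := by ring
          _ ≤ M' ^ 3 * D' := Nat.mul_le_mul (Nat.pow_le_pow_left hM 3) hD
          _ ≤ N := by omega
      exact_mod_cast this
    have h3 : (M : ℝ) * D * (M * ((D : ℝ) ^ 2 / K)) ≤ 1 := by
      rw [← mul_div_assoc, ← mul_div_assoc, div_le_one hKr]
      have : M * D * (M * D ^ 2) ≤ K := by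
        calc M * D * (M * D ^ 2) = M ^ 2 * D ^ 3 := by ring
          _ ≤ M' ^ 2 * D' ^ 3 := Nat.mul_le_mul (Nat.pow_le_pow_left hM 2)
              (Nat.pow_le_pow_left hD 3)
          _ ≤ K := by omega
      exact_mod_cast this
    have h4 : 1 ≤ Real.sqrt M := by
      rw [Real.one_le_sqrt]; exact hMr
    have h5 : b2 * C1 * M * D * lpn p a * ((M : ℝ) ^ 2 / N + M * ((D : ℝ) ^ 2 / K))
        = (b2 * C1 * lpn p a) * ((M : ℝ) * D * ((M : ℝ) ^ 2 / N)
          + (M : ℝ) * D * (M * ((D : ℝ) ^ 2 / K))) := by ring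
    rw [h5]
    have h6 : (b2 * C1 * lpn p a) * ((M : ℝ) * D * ((M : ℝ) ^ 2 / N)
          + (M : ℝ) * D * (M * ((D : ℝ) ^ 2 / K))) ≤ (b2 * C1 * lpn p a) * (2 * Real.sqrt M) := by
      refine mul_le_mul_of_nonneg_left ?_ (by positivity)
      linarith
    linarith
  · rw [(hI 1).2]
    have hKr : (0:ℝ) < K := by exact_mod_cast hKp
    have h1 := av_lower (D := D) hNp hKp (c2 * (c1 * lpn p a)) (by positivity)
      (fun r κ => ‖∑ s, Lr T (r s) (blk 𝕜 y a (κ s))‖) ?_ ?_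
    · refine le_trans (le_of_eq ?_) h1
      ring
    · intro r κ
      by_cases hg : Function.Injective (fun i => (κ 0 i).1)
      · rw [nin_eq_zero (φ := Prod.fst) (κ := κ 0) hg, sub_zero, mul_one]
        simp only [Finset.univ_unique, Fin.default_eq_zero, Finset.sum_singleton]
        exact (mul_le_mul_of_nonneg_left (hblk (κ 0) hg).1 hc2.le).trans
          (Lr_norm T hT' (r 0) _).1
      · rw [nin_eq_one (φ := Prod.fst) (κ := κ 0) hg, sub_self, mul_zero]
        exact norm_nonneg _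
    · rw [div_le_iff₀ hKr]
      have : 2 * D ^ 2 ≤ K := by
        calc 2 * D ^ 2 ≤ 2 * D' ^ 2 := Nat.mul_le_mul_left 2 (Nat.pow_le_pow_left hD 2)
          _ ≤ K := by omega
      have h2 : (2 : ℝ) * (D : ℝ) ^ 2 ≤ K := by exact_mod_cast this
      linarith

end Pool.Agent.Lib.MP_cdd7b4_an.MX.H99
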